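import Pool.Agent.H47.LW.Mo
import Pool.Agent.H81.RW.Nlg
import Pool.Agent.H39.HO.MR

/-!
# Lift of a univalent map of the disc through a power

`pow_root`: a univalent `h : ball 0 1 → ball 0 (ρ ^ l)` is `H ^ l` with `H` univalent (if `h` has no zero), or `h (mo e (w ^ l)) = H w ^ l` with
`H` univalent, `H 0 = 0` (if `h e = 0`).
-/

set_option autoImplicit false

open Filter Topology Metric Set

namespace Pool.Agent.H66.MM

open Pool.Agent.H47.LW

theorem disc_root {h : ℂ → ℂ} (hd : DifferentiableOn ℂ h (ball 0 1)) (h0 : ∀ x ∈ ball (0 : ℂ) 1, h x ≠ 0) {l : ℕ}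
    (hl : 0 < l) : ∃ H : ℂ → ℂ, DifferentiableOn ℂ H (ball 0 1) ∧ ∀ x ∈ ball (0 : ℂ) 1, H x ^ l = h x := by
  obtain ⟨L, hL, hLe⟩ := Pool.Agent.H81.RW.disc_log hd h0
  have hl0 : (l : ℂ) ≠ 0 := by exact_mod_cast hl.ne'
  refine ⟨fun x => Complex.exp (L x / l), (hL.div_const _).cexp, fun x hx => ?_⟩
  show Complex.exp (L x / l) ^ l = h x
  rw [← Complex.exp_nat_mul, mul_div_cancel₀ _ hl0]
  exact hLe x hx

/-- no zero: a univalent root with a prescribed value -/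
theorem root_free {h : ℂ → ℂ} (hd : DifferentiableOn ℂ h (ball 0 1)) (hi : InjOn h (ball 0 1))
    (h0 : ∀ x ∈ ball (0 : ℂ) 1, h x ≠ 0) {l : ℕ} (hl : 0 < l) {w0 a : ℂ} (hw : w0 ∈ ball (0 : ℂ) 1) (ha : a ^ l = h w0) :
    ∃ H : ℂ → ℂ, DifferentiableOn ℂ H (ball 0 1) ∧ InjOn H (ball 0 1) ∧ (∀ x ∈ ball (0 : ℂ) 1, H x ^ l = h x) ∧ H w0 = a := by
  obtain ⟨H, hH, hHe⟩ := disc_root hd h0 hl
  have hn : H w0 ≠ 0 := by
    intro h1
    have h2 := hHe w0 hw
    rw [h1, zero_pow hl.ne'] at h2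
    exact h0 w0 hw h2.symm
  refine ⟨fun x => a / H w0 * H x, hH.const_mul _, ?_, ?_, ?_⟩
  · intro x hx y hy hxy
    have h1 : (a / H w0 * H x) ^ l = (a / H w0 * H y) ^ l := by
      have : a / H w0 * H x = a / H w0 * H y := hxy
      rw [this]
    have h2 : (a / H w0) ^ l = 1 := by
      rw [div_pow, hHe w0 hw, ha, div_self (h0 w0 hw)]
    rw [mul_pow, mul_pow, h2, one_mul, one_mul, hHe x hx, hHe y hy] at h1
    exact hi hx hy h1
  · intro x hx
    show (a / H w0 * H x) ^ l = h x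
    rw [mul_pow, div_pow, hHe w0 hw, ha, div_self (h0 w0 hw), one_mul, hHe x hx]
  · show a / H w0 * H w0 = a
    rw [div_mul_cancel₀ _ hn]

theorem mem_pow {w : ℂ} (hw : w ∈ ball (0 : ℂ) 1) {l : ℕ} (hl : 0 < l) : w ^ l ∈ ball (0 : ℂ) 1 := by
  rw [mem_ball_zero_iff] at hw ⊢
  rw [norm_pow]
  exact pow_lt_one₀ (norm_nonneg _) hw hl.ne'

/-- one zero: a univalent root of `h ∘ mo e ∘ (w ↦ w ^ l)` -/
theorem root_zero {h : ℂ → ℂ} (hd : DifferentiableOn ℂ h (ball 0 1)) (hi : InjOn h (ball 0 1)) {e : ℂ}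
    (he : e ∈ ball (0 : ℂ) 1) (h0 : h e = 0) {l : ℕ} (hl : 0 < l) {w0 a : ℂ} (hw : w0 ∈ ball (0 : ℂ) 1) (ha : a ^ l = h w0) :
    ∃ H : ℂ → ℂ, DifferentiableOn ℂ H (ball 0 1) ∧ InjOn H (ball 0 1) ∧ H 0 = 0 ∧
      (∀ x ∈ ball (0 : ℂ) 1, H x ^ l = h (mo e (x ^ l))) ∧ ∃ w1 ∈ ball (0 : ℂ) 1, H w1 = a ∧ mo e (w1 ^ l) = w0 := by
  have he1 : ‖e‖ < 1 := mem_ball_zero_iff.1 he
  -- `k = h ∘ mo e`, univalent with a simple zero at `0`
  have hmaps : MapsTo (mo e) (ball 0 1) (ball 0 1) := fun x hx =>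
    mem_ball_zero_iff.2 (mo_lt he1 (mem_ball_zero_iff.1 hx))
  have hminj : InjOn (mo e) (ball 0 1) := by
    intro x hx y hy hxy
    have h1 := mo_inv he1 (mem_ball_zero_iff.1 hx)
    have h2 := mo_inv he1 (mem_ball_zero_iff.1 hy)
    rw [← h1, ← h2, hxy]
  have hkd : DifferentiableOn ℂ (fun x => h (mo e x)) (ball 0 1) := hd.comp (mo_diff he1) hmaps
  have hki : InjOn (fun x => h (mo e x)) (ball 0 1) := hi.comp hminj hmaps
  have hk0 : (fun x => h (mo e x)) 0 = 0 := by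
    show h (mo e 0) = 0
    rw [mo_zero, h0]
  -- the quotient `k x / x`
  set q : ℂ → ℂ := dslope (fun x => h (mo e x)) 0 with hq
  have h0b : (0 : ℂ) ∈ ball (0 : ℂ) 1 := mem_ball_self one_pos
  have hqd : DifferentiableOn ℂ q (ball 0 1) :=
    (Complex.differentiableOn_dslope (isOpen_ball.mem_nhds h0b)).2 hkd
  have hqe : ∀ x ∈ ball (0 : ℂ) 1, x * q x = h (mo e x) := by
    intro x _
    rcases eq_or_ne x 0 with rfl | hx
    · rw [zero_mul]
      exact hk0.symm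
    · rw [hq, dslope_of_ne _ hx, slope_def_field, sub_zero]
      have h1 : h (mo e 0) = 0 := hk0
      rw [h1, sub_zero, mul_div_cancel₀ _ hx]
  have hq0 : ∀ x ∈ ball (0 : ℂ) 1, q x ≠ 0 := by
    intro x hx hqx
    rcases eq_or_ne x 0 with rfl | hxn
    · rw [hq, dslope_same] at hqx
      exact Pool.Agent.H39.HO.inj_der isOpen_ball hkd hki h0b hqx
    · have h1 := hqe x hx
      rw [hqx, mul_zero] at h1
      have h2 : (fun x => h (mo e x)) x = (fun x => h (mo e x)) 0 := by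
        rw [hk0]
        exact h1.symm
      exact hxn (hki hx h0b h2)
  obtain ⟨K, hK, hKe⟩ := disc_root hqd hq0 hl
  have hpm : MapsTo (fun x : ℂ => x ^ l) (ball 0 1) (ball 0 1) := fun x hx => mem_pow hx hl
  have hKp : DifferentiableOn ℂ (fun x => K (x ^ l)) (ball 0 1) :=
    hK.comp (differentiable_pow l).differentiableOn hpm
  have hHe : ∀ x ∈ ball (0 : ℂ) 1, (x * K (x ^ l)) ^ l = h (mo e (x ^ l)) := by
    intro x hx
    rw [mul_pow, hKe _ (mem_pow hx hl)]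
    exact hqe _ (mem_pow hx hl)
  have hKn : ∀ x ∈ ball (0 : ℂ) 1, K x ≠ 0 := by
    intro x hx h1
    have h2 := hKe x hx
    rw [h1, zero_pow hl.ne'] at h2
    exact hq0 x hx h2.symm
  refine ⟨fun x => x * K (x ^ l), differentiableOn_id.mul hKp, ?_, by simp, hHe, ?_⟩
  · intro x hx y hy hxy
    have h1 : x * K (x ^ l) = y * K (y ^ l) := hxy
    have h2 : h (mo e (x ^ l)) = h (mo e (y ^ l)) := by rw [← hHe x hx, ← hHe y hy, h1]
    have h3 : x ^ l = y ^ l := hki (mem_pow hx hl) (mem_pow hy hl) h2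
    rw [h3] at h1
    exact mul_right_cancel₀ (hKn _ (mem_pow hy hl)) h1
  · -- the point `w1`
    set u0 : ℂ := mo (-e) w0 with hu0
    have hu0b : ‖u0‖ < 1 := mo_lt (by rwa [norm_neg]) (mem_ball_zero_iff.1 hw)
    have hu0e : mo e u0 = w0 := mo_inv' he1 (mem_ball_zero_iff.1 hw)
    obtain ⟨w1, hw1⟩ := IsAlgClosed.exists_pow_nat_eq u0 hl
    have hw1b : w1 ∈ ball (0 : ℂ) 1 := by
      rw [mem_ball_zero_iff]
      have h1 : ‖w1‖ ^ l < 1 := by rw [← norm_pow, hw1]; exact hu0b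
      by_contra h2
      exact absurd h1 (not_lt.2 (one_le_pow₀ (not_lt.1 h2)))
    rcases eq_or_ne (w1 * K (w1 ^ l)) 0 with hz | hz
    · -- then `w1 = 0`, `a = 0`
      have h1 : w1 = 0 := by
        rcases mul_eq_zero.1 hz with h | h
        · exact h
        · exact absurd h (hKn _ (mem_pow hw1b hl))
      refine ⟨w1, hw1b, ?_, by rw [hw1, hu0e]⟩
      show w1 * K (w1 ^ l) = a
      rw [hz]
      have h2 : a ^ l = 0 := by
        rw [ha, ← hu0e, ← hw1, ← hHe w1 hw1b, hz, zero_pow hl.ne']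
      exact (pow_eq_zero_iff hl.ne').1 h2 |>.symm
    · set ζ : ℂ := a / (w1 * K (w1 ^ l)) with hζ
      have hζl : ζ ^ l = 1 := by
        rw [hζ, div_pow, hHe w1 hw1b, hw1, hu0e, ha]
        refine div_self ?_
        rw [← hu0e, ← hw1, ← hHe w1 hw1b]
        exact pow_ne_zero _ hz
      have hζn : ‖ζ‖ = 1 := by
        have h1 : ‖ζ‖ ^ l = 1 := by rw [← norm_pow, hζl, norm_one]
        exact (pow_eq_one_iff_of_nonneg (norm_nonneg _) hl.ne').1 h1
      have hpow : (ζ * w1) ^ l = u0 := by rw [mul_pow, hζl, one_mul, hw1]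
      refine ⟨ζ * w1, ?_, ?_, by rw [hpow, hu0e]⟩
      · rw [mem_ball_zero_iff, norm_mul, hζn, one_mul]
        exact mem_ball_zero_iff.1 hw1b
      · show ζ * w1 * K ((ζ * w1) ^ l) = a
        rw [hpow, ← hw1, mul_assoc, hζ, div_mul_cancel₀ _ hz]

end Pool.Agent.H66.MM
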