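import Pool.Agent.H66.MM.Core
import Pool.Agent.H66.SP.Defs

/-!
# Lift of univalent maps of the disc in the planar settings

`lift_pg`: common setting `PG` (all Julia sets). `lift_ps`: `PS` (Julia set not the sphere).
-/

set_option autoImplicit false

open Filter Topology Metric Set MeasureTheory

namespace Pool.Agent.H66.MM

open Pool.Agent.H47.LW Pool.Agent.H56.UD

/-- univalent on the unit disc -/
structure Uv (G : ℂ → ℂ) : Prop where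
  diff : DifferentiableOn ℂ G (ball 0 1)
  inj : InjOn G (ball 0 1)

theorem lift_pg {f : ℂ → ℂ} {U J P Cr : Set ℂ} {δ ρ : ℝ} {η : ℂ → ℂ → ℂ} (hps : Pool.Agent.H66.SP.PG f U J P Cr δ η ρ) :
    ∃ ε : ℝ, 0 < ε ∧ ε ≤ δ ∧ ∀ y ∈ J, ∀ z ∈ U, ∀ (G : ℂ → ℂ) (w0 : ℂ), Uv G → (∀ w ∈ ball (0 : ℂ) 1, G w ∈ ball y ε) →
      w0 ∈ ball (0 : ℂ) 1 → G w0 = f z →
      (∃ G1 : ℂ → ℂ, Uv G1 ∧ G1 w0 = z ∧ ∀ w ∈ ball (0 : ℂ) 1, G1 w ∈ U ∧ f (G1 w) = G w) ∨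
      (∃ c ∈ Cr, ∃ e ∈ ball (0 : ℂ) 1, G e = f c ∧ ∃ χ : ℂ → ℂ, Uv χ ∧ χ 0 = c ∧
        (∀ w ∈ ball (0 : ℂ) 1, χ w ∈ U ∧ f (χ w) = G (mo e (w ^ 2))) ∧
        ∃ w1 ∈ ball (0 : ℂ) 1, χ w1 = z ∧ mo e (w1 ^ 2) = w0) := by
  obtain ⟨δ1, hδ1, hle, hloc⟩ := hps.loc
  refine ⟨δ1, hδ1, hle, fun y hy z hz G w0 hG hGy hw0 hGz => ?_⟩
  have hfz : f z ∈ ball y δ1 := hGz ▸ hGy w0 hw0
  rcases hloc y hy z hz hfz with ⟨g, hgd, hgz, hgu⟩ | ⟨c, hc, hsub, v, hv, hvz⟩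
  · left
    refine ⟨fun w => g (G w), ⟨hgd.comp hG.diff hGy, ?_⟩, ?_, fun w hw => hgu _ (hGy w hw)⟩
    · intro x hx x' hx' hxx
      have h1 := (hgu _ (hGy x hx)).2
      have h2 := (hgu _ (hGy x' hx')).2
      have h3 : g (G x) = g (G x') := hxx
      rw [h3, h2] at h1
      exact hG.inj hx hx' h1.symm
    · show g (G w0) = z
      rw [hGz, hgz]
  · obtain ⟨hηd, hηi, hη0, hηf⟩ := hps.nf c hc
    have hρ := hps.hρ
    set h : ℂ → ℂ := fun w => G w - f c with hh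
    have hhd : DifferentiableOn ℂ h (ball 0 1) := hG.diff.sub_const _
    have hhi : InjOn h (ball 0 1) := fun x hx x' hx' hxx => hG.inj hx hx' (sub_left_inj.1 hxx)
    have hhs : ∀ w ∈ ball (0 : ℂ) 1, ‖h w‖ < ρ ^ 2 / 4 := fun w hw => by
      have := hsub (hGy w hw)
      rwa [mem_ball, dist_eq_norm] at this
    have hfv := (hηf v hv).2
    rw [hvz] at hfv
    have ha : v ^ 2 = h w0 := by
      show v ^ 2 = G w0 - f c
      rw [hGz, hfv]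
      ring
    -- roots of small numbers are small
    have hsm : ∀ s : ℂ, ‖s ^ 2‖ < ρ ^ 2 / 4 → s ∈ ball (0 : ℂ) ρ := fun s hs => by
      rw [mem_ball_zero_iff]
      rw [norm_pow] at hs
      have h1 : ‖s‖ ^ 2 < ρ ^ 2 := by nlinarith [sq_nonneg ρ]
      exact lt_of_pow_lt_pow_left₀ 2 hρ.le h1
    by_cases h0 : ∃ e ∈ ball (0 : ℂ) 1, h e = 0
    · obtain ⟨e, he, he0⟩ := h0
      right
      obtain ⟨H, hHd, hHi, hH0, hHe, w1, hw1, hHw1, hmo⟩ := root_zero hhd hhi he he0 two_pos hw0 ha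
      have hHm : MapsTo H (ball 0 1) (ball 0 ρ) := fun w hw => by
        refine hsm _ ?_
        rw [hHe w hw]
        exact hhs _ (mem_ball_zero_iff.2 (mo_lt (mem_ball_zero_iff.1 he) (mem_ball_zero_iff.1 (mem_pow hw two_pos))))
      refine ⟨c, hc, e, he, sub_eq_zero.1 he0, fun w => η c (H w), ⟨hηd.comp hHd hHm, hηi.comp hHi hHm⟩, ?_, ?_, w1, hw1,
        ?_, hmo⟩
      · show η c (H 0) = c
        rw [hH0, hη0]
      · intro w hw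
        refine ⟨(hηf _ (hHm hw)).1, ?_⟩
        show f (η c (H w)) = G (mo e (w ^ 2))
        rw [(hηf _ (hHm hw)).2, hHe w hw]
        show f c + (G (mo e (w ^ 2)) - f c) = G (mo e (w ^ 2))
        ring
      · show η c (H w1) = z
        rw [hHw1, hvz]
    · left
      have h0' : ∀ x ∈ ball (0 : ℂ) 1, h x ≠ 0 := fun x hx hx0 => h0 ⟨x, hx, hx0⟩
      obtain ⟨H, hHd, hHi, hHe, hHw⟩ := root_free hhd hhi h0' two_pos hw0 ha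
      have hHm : MapsTo H (ball 0 1) (ball 0 ρ) := fun w hw => by
        refine hsm _ ?_
        rw [hHe w hw]
        exact hhs w hw
      refine ⟨fun w => η c (H w), ⟨hηd.comp hHd hHm, hηi.comp hHi hHm⟩, ?_, ?_⟩
      · show η c (H w0) = z
        rw [hHw, hvz]
      · intro w hw
        refine ⟨(hηf _ (hHm hw)).1, ?_⟩
        show f (η c (H w)) = G w
        rw [(hηf _ (hHm hw)).2, hHe w hw]
        show f c + (G w - f c) = G w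
        ring

theorem lift_ps {f : ℂ → ℂ} {U J P Cr : Set ℂ} {δ ρ : ℝ} {η : ℂ → ℂ → ℂ} (hps : PS f U J P Cr δ η ρ) :
    ∃ ε : ℝ, 0 < ε ∧ ε ≤ δ ∧ ∀ y ∈ J, ∀ z ∈ U, ∀ (G : ℂ → ℂ) (w0 : ℂ), Uv G → (∀ w ∈ ball (0 : ℂ) 1, G w ∈ ball y ε) →
      w0 ∈ ball (0 : ℂ) 1 → G w0 = f z →
      (∃ G1 : ℂ → ℂ, Uv G1 ∧ G1 w0 = z ∧ ∀ w ∈ ball (0 : ℂ) 1, G1 w ∈ U ∧ f (G1 w) = G w) ∨
      (∃ c ∈ Cr, ∃ e ∈ ball (0 : ℂ) 1, G e = f c ∧ ∃ χ : ℂ → ℂ, Uv χ ∧ χ 0 = c ∧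
        (∀ w ∈ ball (0 : ℂ) 1, χ w ∈ U ∧ f (χ w) = G (mo e (w ^ 2))) ∧
        ∃ w1 ∈ ball (0 : ℂ) 1, χ w1 = z ∧ mo e (w1 ^ 2) = w0) :=
  lift_pg (Pool.Agent.H66.SP.pg_ps hps)

end Pool.Agent.H66.MM
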